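import Pool.Agent.K3h5.IB.Stm

/-!
# Iterated biased random walks: one level (brick ONE)
-/

set_option autoImplicit false

open MeasureTheory Filter Topology

namespace Pool.Agent.K3h92.IB

open Pool.Agent.K3h5.IB

variable {d : ℕ}

theorem vec_inj {e e' : D d} (h : vec e = vec e') : e = e' := by
  have h1 : e.1 = e'.1 := by
    by_contra hne
    have h2 := congrFun h e.1
    unfold vec at h2
    rw [Pi.single_eq_same, Pi.single_eq_of_ne hne] at h2
    split_ifs at h2 <;> omega
  have h3 := congrFun h e.1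
  unfold vec at h3
  rw [Pi.single_eq_same, h1, Pi.single_eq_same] at h3
  refine Prod.ext h1 ?_
  cases he : e.2 <;> (cases he' : e'.2 <;> simp_all)

theorem mem_nbrs {Z : Set (V d × D d)} {v : V d} {e : D d} : e ∈ nbrs Z v ↔ (v, e) ∈ Z := by
  classical
  simp [nbrs]

theorem cnt_congr {r y : ℕ → V d} {k : ℕ} (h : ∀ j ≤ k, r j = y j) : cnt r k = cnt y k := by
  unfold cnt
  congr 1
  apply Finset.filter_congr
  intro j hj
  rw [Finset.mem_range] at hj
  rw [h j hj.le, h k le_rfl]

theorem cnt_lt {y : ℕ → V d} {k k' : ℕ} (hk : k < k') (h : y k = y k') : cnt y k < cnt y k' := by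
  unfold cnt
  apply Finset.card_lt_card
  rw [Finset.ssubset_iff_of_subset]
  · refine ⟨k, ?_, ?_⟩
    · simp [hk, h]
    · simp
  · intro j hj
    rw [Finset.mem_filter, Finset.mem_range] at hj ⊢
    exact ⟨hj.1.trans hk, hj.2.trans h⟩

/-- the event in terms of the stacks -/
theorem path_iff (hR : S_ROUTE) (s : V d → ℕ → V d) (y : ℕ → V d) (hy : y 0 = 0) (n : ℕ) :
    (∀ k ≤ n, route s k = y k) ↔ ∀ k < n, s (y k) (cnt y k) = y (k + 1) := by
  obtain ⟨h0, h1⟩ := (hR d s (route s)).2 rfl
  constructor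
  · intro h k hk
    have h2 := h1 k
    rw [h (k + 1) (by omega), h k (by omega), cnt_congr (fun j hj => h j (by omega))] at h2
    exact h2.symm
  · intro h k
    induction k using Nat.strong_induction_on with
    | _ k ih =>
      intro hk
      cases k with
      | zero => rw [h0, hy]
      | succ k =>
        rw [h1 k, ih k (by omega) (by omega),
          cnt_congr (fun j hj => ih j (by omega) (by omega))]
        exact h k (by omega)

theorem path0_repl (a : ℕ) (x : ℕ → S d) (u : ℕ × ℕ × Finset (D d) → D d) :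
    path0 (repl a x u) = path0 x := rfl

theorem idx_repl (a : ℕ) (x : ℕ → S d) (u : ℕ × ℕ × Finset (D d) → D d) :
    idx (repl a x u) = idx x := rfl

theorem stk_repl (a : ℕ) (x : ℕ → S d) (u : ℕ × ℕ × Finset (D d) → D d)
    (Z : Set (V d × D d)) (v : V d) (m : ℕ) :
    stk (repl a x u) a Z v m = v + vec (u (idx x v, m, nbrs Z v)) := by
  unfold stk
  rw [idx_repl]
  simp [repl]

/-! ### measurability -/

theorem meas_path0 (n : ℕ) : Measurable fun x : ℕ → S d => path0 x n := by
  unfold path0
  refine Finset.measurable_sum _ fun k _ => ?_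
  have h1 : Measurable (vec : D d → V d) := Measurable.of_discrete
  exact h1.comp ((measurable_pi_apply _).comp (measurable_pi_apply k))

theorem sInf_eq_iff (T : Set ℕ) (k : ℕ) : sInf T = k ↔ (k ∈ T ∧ ∀ j < k, j ∉ T) ∨
    (k = 0 ∧ ∀ j, j ∉ T) := by
  constructor
  · rintro rfl
    by_cases h : T.Nonempty
    · exact Or.inl ⟨Nat.sInf_mem h, fun j hj => Nat.notMem_of_lt_sInf hj⟩
    · rw [Set.not_nonempty_iff_eq_empty] at h
      subst h
      exact Or.inr ⟨by simp, fun j hj => hj⟩
  · rintro (⟨h1, h2⟩ | ⟨rfl, h⟩)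
    · refine le_antisymm (Nat.sInf_le h1) ?_
      by_contra h3
      exact h2 _ (not_le.1 h3) (Nat.sInf_mem ⟨k, h1⟩)
    · have : T = ∅ := Set.eq_empty_iff_forall_notMem.2 h
      rw [this]
      simp

theorem meas_idx (v : V d) : Measurable fun x : ℕ → S d => idx x v := by
  refine measurable_to_countable' fun k => ?_
  have h : (fun x : ℕ → S d => idx x v) ⁻¹' {k} =
      ({x | path0 x k = v} ∩ ⋂ j ∈ Set.Iio k, {x | path0 x j = v}ᶜ) ∪
      ({x | k = 0} ∩ ⋂ j, {x | path0 x j = v}ᶜ) := by
    ext x
    simp only [Set.mem_preimage, Set.mem_singleton_iff, idx, sInf_eq_iff, Set.mem_union,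
      Set.mem_inter_iff, Set.mem_iInter, Set.mem_compl_iff, Set.mem_ofPred_eq, Set.mem_Iio]
  rw [h]
  have h1 : ∀ j, MeasurableSet {x : ℕ → S d | path0 x j = v} := fun j =>
    meas_path0 j (measurableSet_singleton v)
  refine MeasurableSet.union ((h1 k).inter (MeasurableSet.biInter (Set.to_countable _)
    fun j _ => (h1 j).compl)) (MeasurableSet.inter (MeasurableSet.const _)
      (MeasurableSet.iInter fun j => (h1 j).compl))

theorem meas_nbrs {Ω : Type} [MeasurableSpace Ω] (Z : Ω → Set (V d × D d))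
    (hZ : ∀ b, MeasurableSet {x | b ∈ Z x}) (v : V d) (F : Finset (D d)) :
    MeasurableSet {x | nbrs (Z x) v = F} := by
  have h : {x | nbrs (Z x) v = F} = ⋂ e, {x | (v, e) ∈ Z x ↔ e ∈ F} := by
    ext x
    simp only [Set.mem_ofPred_eq, Set.mem_iInter, Finset.ext_iff, mem_nbrs]
  rw [h]
  refine MeasurableSet.iInter fun e => ?_
  by_cases he : e ∈ F
  · simp only [he, iff_true]
    exact hZ _
  · simp only [he, iff_false]
    exact (hZ _).compl

theorem meas_comp_nbrs {Ω : Type} [MeasurableSpace Ω] (Z : Ω → Set (V d × D d))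
    (hZ : ∀ b, MeasurableSet {x | b ∈ Z x}) (v : V d) (g : Finset (D d) → ℝ) :
    Measurable fun x => g (nbrs (Z x) v) := by
  let _ : MeasurableSpace (Finset (D d)) := ⊤
  have h1 : Measurable fun x => nbrs (Z x) v :=
    measurable_to_countable' fun F => meas_nbrs Z hZ v F
  exact (measurable_from_top (f := g)).comp h1

theorem meas_trans {Ω : Type} [MeasurableSpace Ω] (p : D d → ℝ) (Z : Ω → Set (V d × D d))
    (hZ : ∀ b, MeasurableSet {x | b ∈ Z x}) (v w : V d) :
    Measurable fun x => trans p (Z x) v w :=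
  meas_comp_nbrs Z hZ v
    (fun F => ∑ e ∈ F, if v + vec e = w then p e / ∑ e' ∈ F, p e' else 0)

theorem meas_weight {Ω : Type} [MeasurableSpace Ω] (p : D d → ℝ) (Z : Ω → Set (V d × D d))
    (hZ : ∀ b, MeasurableSet {x | b ∈ Z x}) (y : ℕ → V d) (n : ℕ) :
    Measurable fun x => weight p (Z x) y n := by
  unfold weight
  split_ifs
  · exact Finset.measurable_prod _ fun k _ => meas_trans p Z hZ _ _
  · exact measurable_const

theorem trans_nonneg {p : D d → ℝ} (hp : ∀ e, 0 < p e) (Z : Set (V d × D d)) (v w : V d) :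
    0 ≤ trans p Z v w := by
  unfold Pool.Agent.K3h5.IB.trans
  refine Finset.sum_nonneg fun e _ => ?_
  split_ifs
  · exact div_nonneg (hp e).le (Finset.sum_nonneg fun e _ => (hp e).le)
  · exact le_rfl

theorem weight_nonneg {p : D d → ℝ} (hp : ∀ e, 0 < p e) (Z : Set (V d × D d)) (y : ℕ → V d)
    (n : ℕ) : 0 ≤ weight p Z y n := by
  unfold weight
  split_ifs
  · exact Finset.prod_nonneg fun k _ => trans_nonneg hp Z _ _
  · exact le_rfl

/-- measurability of the event -/
theorem meas_event (a : ℕ) (Z : (ℕ → S d) → Set (V d × D d))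
    (hZ : ∀ b, MeasurableSet {x | b ∈ Z x}) (v w : V d) (m : ℕ) :
    MeasurableSet {x | stk x a (Z x) v m = w} := by
  have h : {x | stk x a (Z x) v m = w} = ⋃ k : ℕ, ⋃ F : Finset (D d),
      ({x | idx x v = k} ∩ {x | nbrs (Z x) v = F} ∩
        {x : ℕ → S d | v + vec (x k (some (a, m, F))) = w}) := by
    ext x
    simp only [Set.mem_ofPred_eq, Set.mem_iUnion, Set.mem_inter_iff]
    constructor
    · intro h
      exact ⟨_, _, ⟨rfl, rfl⟩, h⟩
    · rintro ⟨k, F, ⟨rfl, rfl⟩, h⟩
      exact h
  rw [h]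
  refine MeasurableSet.iUnion fun k => MeasurableSet.iUnion fun F => ?_
  refine MeasurableSet.inter (MeasurableSet.inter ?_ ?_) ?_
  · exact meas_idx v (measurableSet_singleton k)
  · exact meas_nbrs Z hZ v F
  · have h1 : Measurable fun x : ℕ → S d => x k (some (a, m, F)) :=
      (measurable_pi_apply _).comp (measurable_pi_apply k)
    exact h1 (MeasurableSet.of_discrete (s := {e : D d | v + vec e = w}))

/-! ### the conditional probability -/

theorem lam_apply {p : ℕ → D d → ℝ} {q : D d → ℝ} (hP : S_PROB) (hpar : Par p q) (a m : ℕ)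
    (E : Finset (D d)) (hE : E.Nonempty) (e : D d) (he : e ∈ E) :
    lam p q (some (a, m, E)) {e} =
      ENNReal.ofReal ((if a = 0 then q else p a) e / ∑ e' ∈ E, (if a = 0 then q else p a) e') := by
  obtain ⟨h1, -, -, -, h5, h6, -⟩ := hP d p q hpar
  have := h1 (some (a, m, E))
  rw [← ofReal_measureReal]
  congr 1
  cases a with
  | zero =>
    rw [if_pos rfl]
    exact h6 m E hE e he
  | succ i =>
    rw [if_neg (Nat.succ_ne_zero i)]
    exact h5 i m E hE e he

theorem lam_compl {p : ℕ → D d → ℝ} {q : D d → ℝ} (hP : S_PROB) (hpar : Par p q) (a m : ℕ)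
    (E : Finset (D d)) (hE : E.Nonempty) :
    lam p q (some (a, m, E)) {e | e ∉ E} = 0 := by
  obtain ⟨h1, -, -, -, -, -, h7⟩ := hP d p q hpar
  have := h1 (some (a, m, E))
  have hs : {e | e ∉ E} = ⋃ e ∈ {e | e ∉ E}, {e} := (Set.biUnion_of_singleton _).symm
  rw [hs]
  refine (measure_biUnion_null_iff (Set.to_countable _)).2 fun e he => ?_
  rw [← ofReal_measureReal, h7 a m E hE e he, ENNReal.ofReal_zero]

open Classical in
/-- the probability, for fixed `x` -/
theorem cond_prob {p : ℕ → D d → ℝ} {q : D d → ℝ} (hP : S_PROB) (hpar : Par p q) (a : ℕ)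
    (Z : Set (V d × D d)) (hsym : ∀ v e, (v, e) ∈ Z → (v + vec e, opp e) ∈ Z)
    (h0 : ∃ e, ((0 : V d), e) ∈ Z) (ix : V d → ℕ)
    (hix : ∀ v v' e e', (v, e) ∈ Z → (v', e') ∈ Z → ix v = ix v' → v = v')
    (n : ℕ) (y : ℕ → V d) (hy : y 0 = 0) :
    UU p q a {u | ∀ k < n, y k + vec (u (ix (y k), cnt y k, nbrs Z (y k))) = y (k + 1)} =
      ENNReal.ofReal (weight (if a = 0 then q else p a) Z y n) := by
  obtain ⟨h1, -⟩ := hP d p q hpar
  have hprob : ∀ j : ℕ × ℕ × Finset (D d),
      IsProbabilityMeasure (lam p q (some (a, j.2.1, j.2.2))) := fun j => h1 _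
  have hpos : ∀ e, 0 < (if a = 0 then q else p a) e := by
    intro e
    split_ifs
    · exact hpar.qpos e
    · exact hpar.pos a e
  set pr := (if a = 0 then q else p a) with hpr
  unfold weight
  rw [if_pos hy]
  by_cases hall : ∀ k < n, ∃ e, (y k, e) ∈ Z ∧ y (k + 1) = y k + vec e
  · have hne : Nonempty (D d) := ⟨h0.choose⟩
    choose! e he1 he2 using hall
    set key : ℕ → ℕ × ℕ × Finset (D d) := fun k => (ix (y k), cnt y k, nbrs Z (y k)) with hkey
    have hinj : Set.InjOn key (Finset.range n : Set ℕ) := by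
      intro k hk k' hk' hkk
      rw [Finset.mem_coe, Finset.mem_range] at hk hk'
      have e1 : ix (y k) = ix (y k') := congrArg (fun z => z.1) hkk
      have e2 : cnt y k = cnt y k' := congrArg (fun z => z.2.1) hkk
      have e3 := hix _ _ _ _ (he1 k hk) (he1 k' hk') e1
      rcases lt_trichotomy k k' with h | h | h
      · exact absurd e2 (cnt_lt h e3).ne
      · exact h
      · exact absurd e2.symm (cnt_lt h e3.symm).ne
    have hset : {u : ℕ × ℕ × Finset (D d) → D d |
        ∀ k < n, y k + vec (u (ix (y k), cnt y k, nbrs Z (y k))) = y (k + 1)} =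
        Set.pi ((Finset.range n).image key : Finset _)
          (fun j => {z | ∀ k < n, key k = j → z = e k}) := by
      ext u
      simp only [Set.mem_ofPred_eq, Set.mem_pi, Finset.coe_image, Set.mem_image,
        Finset.mem_coe, Finset.mem_range]
      constructor
      · rintro h j ⟨k, hk, rfl⟩ k' hk' hkk
        have := h k' hk'
        rw [he2 k' hk'] at this
        rw [← hkk]
        exact vec_inj (add_left_cancel this)
      · intro h k hk
        have := h (key k) ⟨k, hk, rfl⟩ k hk rfl
        rw [he2 k hk, ← this]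
    rw [hset]
    unfold UU
    rw [Measure.infinitePi_pi _ (fun i _ => MeasurableSet.of_discrete), Finset.prod_image hinj,
      ENNReal.ofReal_prod_of_nonneg (fun k _ => trans_nonneg hpos Z _ _)]
    refine Finset.prod_congr rfl fun k hk => ?_
    rw [Finset.mem_range] at hk
    have e1 : {z : D d | ∀ k' < n, key k' = key k → z = e k'} = {e k} := by
      ext z
      simp only [Set.mem_ofPred_eq, Set.mem_singleton_iff]
      constructor
      · intro h
        exact h k hk rfl
      · rintro rfl k' hk' hkk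
        have : k' = k := hinj (by simpa using hk') (by simpa using hk) hkk
        rw [this]
    rw [e1]
    have hmem : e k ∈ nbrs Z (y k) := mem_nbrs.2 (he1 k hk)
    have e2 : trans pr Z (y k) (y (k + 1)) = pr (e k) / ∑ e' ∈ nbrs Z (y k), pr e' := by
      unfold Pool.Agent.K3h5.IB.trans
      rw [Finset.sum_eq_single (e k)]
      · rw [if_pos (he2 k hk).symm]
      · intro b _ hb
        rw [if_neg]
        intro h
        rw [he2 k hk] at h
        exact hb (vec_inj (add_left_cancel h))
      · intro h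
        exact absurd hmem h
    rw [e2]
    exact lam_apply hP hpar a (cnt y k) (nbrs Z (y k)) ⟨_, hmem⟩ (e k) hmem
  · push Not at hall
    -- the first bad time
    obtain ⟨k, ⟨hkn, hk⟩, hmin⟩ : ∃ k, (k < n ∧ ∀ e, (y k, e) ∈ Z → y (k + 1) ≠ y k + vec e) ∧
        ∀ k' < k, ∃ e, (y k', e) ∈ Z ∧ y (k' + 1) = y k' + vec e := by
      have hex : ∃ k, k < n ∧ ∀ e, (y k, e) ∈ Z → y (k + 1) ≠ y k + vec e := hall
      refine ⟨Nat.find hex, Nat.find_spec hex, fun k' hk' => ?_⟩
      have h2 := Nat.find_min hex hk'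
      push Not at h2
      exact h2 (hk'.trans (Nat.find_spec hex).1)
    have hne : (nbrs Z (y k)).Nonempty := by
      cases k with
      | zero =>
        obtain ⟨e, he⟩ := h0
        exact ⟨e, mem_nbrs.2 (by rw [hy]; exact he)⟩
      | succ k =>
        obtain ⟨e, he1, he2⟩ := hmin k (by omega)
        exact ⟨opp e, mem_nbrs.2 (by rw [he2]; exact hsym _ _ he1)⟩
    have hw : ∏ k ∈ Finset.range n, trans pr Z (y k) (y (k + 1)) = 0 := by
      refine Finset.prod_eq_zero (Finset.mem_range.2 hkn) ?_
      unfold Pool.Agent.K3h5.IB.trans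
      refine Finset.sum_eq_zero fun e he => ?_
      rw [if_neg]
      intro h
      exact hk e (mem_nbrs.1 he) h.symm
    rw [hw, ENNReal.ofReal_zero]
    refine measure_mono_null (t := (fun u : ℕ × ℕ × Finset (D d) → D d =>
      u (ix (y k), cnt y k, nbrs Z (y k))) ⁻¹' {e | e ∉ nbrs Z (y k)}) ?_ ?_
    · intro u hu
      simp only [Set.mem_ofPred_eq] at hu
      simp only [Set.mem_preimage, Set.mem_ofPred_eq]
      intro hmem
      exact hk _ (mem_nbrs.1 hmem) (hu k hkn).symm
    · unfold UU
      rw [← Measure.map_apply (measurable_pi_apply _) MeasurableSet.of_discrete,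
        Measure.infinitePi_map_eval]
      exact lam_compl hP hpar a (cnt y k) (nbrs Z (y k)) hne

/-- **ONE** -/
theorem t_ONE : S_PROB → S_ROUTE → S_REPL → S_ONE := by
  intro hP hR hRe d p q hpar a Z hZ hrepl hsym hae A hA hAr n y
  obtain ⟨h1, h2, h3, -⟩ := hP d p q hpar
  have hprob : ∀ j : ℕ × ℕ × Finset (D d),
      IsProbabilityMeasure (lam p q (some (a, j.2.1, j.2.2))) := fun j => h1 _
  have hUU : IsProbabilityMeasure (UU p q a) := by unfold UU; infer_instance
  have hpos : ∀ e, 0 < (if a = 0 then q else p a) e := by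
    intro e
    split_ifs
    · exact hpar.qpos e
    · exact hpar.pos a e
  by_cases hy : y 0 = 0
  swap
  · have e1 : (A ∩ {x | ∀ k ≤ n, route (stk x a (Z x)) k = y k}) = ∅ := by
      ext x
      simp only [Set.mem_inter_iff, Set.mem_ofPred_eq, Set.mem_empty_iff_false, iff_false,
        not_and]
      intro _ h
      have h5 := ((hR d (stk x a (Z x)) (route (stk x a (Z x)))).2 rfl).1
      rw [h 0 (Nat.zero_le n)] at h5
      exact hy h5
    rw [e1, measureReal_empty]
    have e2 : ∀ x, weight (if a = 0 then q else p a) (Z x) y n = 0 := by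
      intro x
      unfold weight
      rw [if_neg hy]
    simp only [e2, integral_zero]
  · set E : Set (ℕ → S d) := {x | ∀ k < n, stk x a (Z x) (y k) (cnt y k) = y (k + 1)} with hE
    have e1 : {x | ∀ k ≤ n, route (stk x a (Z x)) k = y k} = E := by
      ext x
      exact path_iff hR _ y hy n
    rw [e1]
    have hEm : MeasurableSet E := by
      have : E = ⋂ k ∈ Set.Iio n, {x | stk x a (Z x) (y k) (cnt y k) = y (k + 1)} := by
        ext x
        simp [hE]
      rw [this]
      exact MeasurableSet.biInter (Set.to_countable _) fun k _ => meas_event a Z hZ _ _ _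
    have hmp := hRe d p q hpar a
    have hAE : MeasurableSet (A ∩ E) := hA.inter hEm
    have e2 : PP p q (A ∩ E) = ∫⁻ x in A,
        ENNReal.ofReal (weight (if a = 0 then q else p a) (Z x) y n) ∂(PP p q) := by
      rw [← hmp.measure_preimage hAE.nullMeasurableSet,
        Measure.prod_apply (hmp.measurable hAE), ← lintegral_indicator hA]
      refine lintegral_congr_ae ?_
      filter_upwards [hae] with x hx
      by_cases hxA : x ∈ A
      · rw [Set.indicator_of_mem hxA]
        have e3 : (Prod.mk x ⁻¹' ((fun z : (ℕ → S d) × (ℕ × ℕ × Finset (D d) → D d) =>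
            repl a z.1 z.2) ⁻¹' (A ∩ E))) = {u | ∀ k < n, y k +
              vec (u (idx x (y k), cnt y k, nbrs (Z x) (y k))) = y (k + 1)} := by
          ext u
          simp only [Set.mem_preimage, Set.mem_inter_iff, hE, Set.mem_ofPred_eq, hAr, hxA,
            true_and, hrepl, stk_repl]
        rw [e3]
        refine cond_prob hP hpar a (Z x) (hsym x) hx.1 (idx x) ?_ n y hy
        intro v v' e e' hv hv' hvv
        obtain ⟨m, hm⟩ := hx.2 v e hv
        obtain ⟨m', hm'⟩ := hx.2 v' e' hv'
        have k1 : path0 x (idx x v) = v := Nat.sInf_mem (s := {n | path0 x n = v}) ⟨m, hm⟩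
        have k2 : path0 x (idx x v') = v' := Nat.sInf_mem (s := {n | path0 x n = v'}) ⟨m', hm'⟩
        rw [← k1, ← k2, hvv]
      · rw [Set.indicator_of_notMem hxA]
        have e3 : (Prod.mk x ⁻¹' ((fun z : (ℕ → S d) × (ℕ × ℕ × Finset (D d) → D d) =>
            repl a z.1 z.2) ⁻¹' (A ∩ E))) = ∅ := by
          ext u
          simp only [Set.mem_preimage, Set.mem_inter_iff, hAr, hxA, false_and,
            Set.mem_empty_iff_false]
        rw [e3, measure_empty]
    rw [Measure.real, e2, integral_eq_lintegral_of_nonneg_ae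
      (Eventually.of_forall fun x => weight_nonneg hpos _ _ _)
      (meas_weight _ Z hZ y n).aestronglyMeasurable]

end Pool.Agent.K3h92.IB
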